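import Pool.Agent.H33.HH.TD
import Pool.Agent.H28.RC.Basic

/-!
# Half of all (`MP_347b49_nt`), row PR1: the values at the principal ideals
-/

set_option autoImplicit false

open NumberField Module
open scoped nonZeroDivisors

namespace Pool.Agent.H24.HH

open Pool.Agent.H28.RC Pool.Agent.H33.HH

section

variable {K : Type} [Field K] [NumberField K]

/-- a nonzero lift -/
lemma lift_ne {f : Ideal (𝓞 K)} (hf : f ≠ ⊥) (r : 𝓞 K ⧸ f) :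
    ∃ a : 𝓞 K, a ≠ 0 ∧ Ideal.Quotient.mk f a = r := by
  obtain ⟨a, ha⟩ := Ideal.Quotient.mk_surjective r
  by_cases h : a = 0
  · obtain ⟨b, hb, hb0⟩ := Submodule.exists_mem_ne_zero_of_ne_bot hf
    refine ⟨b, hb0, ?_⟩
    rw [← ha, h, map_zero, Ideal.Quotient.eq_zero_iff_mem]
    exact hb
  · exact ⟨a, h, ha⟩

/-- the value with the sign -/
noncomputable def Gv (χ : RCC K) (a : 𝓞 K) : ℂ := χ.ψ (Ideal.span {a}) * sg K χ.S (a : K)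

lemma coe_ne {a : 𝓞 K} (h : a ≠ 0) : (a : K) ≠ 0 := by
  simpa using h

/-- the value at the product -/
lemma Gv_one (χ : RCC K) {a c : 𝓞 K} (ha : a ≠ 0)
    (hc : c ≠ 0) (h : Ideal.Quotient.mk χ.f (a * c) = 1) :
    Gv χ a * Gv χ c = 1 := by
  have h1 : a * c - 1 ∈ χ.f := by
    rwa [← map_one (Ideal.Quotient.mk χ.f), Ideal.Quotient.eq] at h
  have h2 := χ.princ (a * c) (mul_ne_zero ha hc) h1
  rw [← Ideal.span_singleton_mul_span_singleton, χ.map_mul] at h2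
  have e : (((a * c : 𝓞 K)) : K) = (a : K) * (c : K) := rfl
  rw [e, sg_mul χ.S (coe_ne ha) (coe_ne hc)] at h2
  unfold Gv
  have s1 := sg_sq χ.S (a : K)
  have s2 := sg_sq χ.S (c : K)
  calc χ.ψ (Ideal.span {a}) * sg K χ.S (a : K) * (χ.ψ (Ideal.span {c}) * sg K χ.S (c : K))
      = (χ.ψ (Ideal.span {a}) * χ.ψ (Ideal.span {c})) *
        (sg K χ.S (a : K) * sg K χ.S (c : K)) := by ring
    _ = (sg K χ.S (a : K) * sg K χ.S (a : K)) * (sg K χ.S (c : K) * sg K χ.S (c : K)) := by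
        rw [h2]; ring
    _ = 1 := by rw [s1, s2, one_mul]

/-- the value depends only on the residue -/
lemma Gv_congr (χ : RCC K) {a b : 𝓞 K} (ha : a ≠ 0) (hb : b ≠ 0) (u : (𝓞 K ⧸ χ.f)ˣ)
    (h1 : (u : 𝓞 K ⧸ χ.f) = Ideal.Quotient.mk _ a)
    (h2 : (u : 𝓞 K ⧸ χ.f) = Ideal.Quotient.mk _ b) :
    Gv χ a = Gv χ b := by
  obtain ⟨c, hc, hcu⟩ := lift_ne χ.f_ne ((u⁻¹ : (𝓞 K ⧸ χ.f)ˣ) : 𝓞 K ⧸ χ.f)
  have e1 := Gv_one χ ha hc (by rw [map_mul, ← h1, hcu, Units.mul_inv])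
  have e2 := Gv_one χ hb hc (by rw [map_mul, ← h2, hcu, Units.mul_inv])
  have hne : Gv χ c ≠ 0 := by
    intro h
    rw [h, mul_zero] at e1
    exact zero_ne_one e1
  exact mul_right_cancel₀ hne (e1.trans e2.symm)

lemma Gv_mul (χ : RCC K) {a b : 𝓞 K} (ha : a ≠ 0) (hb : b ≠ 0) :
    Gv χ (a * b) = Gv χ a * Gv χ b := by
  unfold Gv
  rw [← Ideal.span_singleton_mul_span_singleton, χ.map_mul]
  have e : (((a * b : 𝓞 K)) : K) = (a : K) * (b : K) := rfl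
  rw [e, sg_mul χ.S (coe_ne ha) (coe_ne hb)]
  ring

lemma Gv_ne (χ : RCC K) {a : 𝓞 K} (ha : a ≠ 0) (u : (𝓞 K ⧸ χ.f)ˣ)
    (h1 : (u : 𝓞 K ⧸ χ.f) = Ideal.Quotient.mk _ a) : Gv χ a ≠ 0 := by
  obtain ⟨c, hc, hcu⟩ := lift_ne χ.f_ne ((u⁻¹ : (𝓞 K ⧸ χ.f)ˣ) : 𝓞 K ⧸ χ.f)
  have e1 := Gv_one χ ha hc (by rw [map_mul, ← h1, hcu, Units.mul_inv])
  intro h
  rw [h, zero_mul] at e1
  exact zero_ne_one e1

/-- a chosen lift -/
noncomputable def au (χ : RCC K) (u : (𝓞 K ⧸ χ.f)ˣ) : 𝓞 K :=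
  (lift_ne χ.f_ne (u : 𝓞 K ⧸ χ.f)).choose

lemma au_ne (χ : RCC K) (u : (𝓞 K ⧸ χ.f)ˣ) : au χ u ≠ 0 :=
  (lift_ne χ.f_ne (u : 𝓞 K ⧸ χ.f)).choose_spec.1

lemma au_mk (χ : RCC K) (u : (𝓞 K ⧸ χ.f)ˣ) :
    (u : 𝓞 K ⧸ χ.f) = Ideal.Quotient.mk _ (au χ u) :=
  (lift_ne χ.f_ne (u : 𝓞 K ⧸ χ.f)).choose_spec.2.symm

/-- the character of the unit group -/
noncomputable def th0 (χ : RCC K) : (𝓞 K ⧸ χ.f)ˣ →* ℂˣ :=
  MonoidHom.mk' (fun u => Units.mk0 (Gv χ (au χ u)) (Gv_ne χ (au_ne χ u) u (au_mk χ u))) (by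
      intro u v
      ext
      simp only [Units.val_mk0, Units.val_mul]
      rw [← Gv_mul χ (au_ne χ u) (au_ne χ v)]
      refine Gv_congr χ (au_ne χ _) (mul_ne_zero (au_ne χ u) (au_ne χ v)) (u * v)
        (au_mk χ _) ?_
      rw [map_mul, ← au_mk χ u, ← au_mk χ v, Units.val_mul])

lemma th0_apply (χ : RCC K) (u : (𝓞 K ⧸ χ.f)ˣ) :
    ((th0 χ u : ℂˣ) : ℂ) = Gv χ (au χ u) := rfl

end

/-- PR1: the values at the principal ideals. -/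
theorem pf_PR1 : T_PR1 := by
  intro K _ _ χ
  refine ⟨th0 χ, ?_⟩
  intro a u ha hu
  rw [th0_apply, Gv_congr χ (au_ne χ u) ha u (au_mk χ u) hu]
  unfold Gv
  have s1 := sg_sq χ.S (a : K)
  calc χ.ψ (Ideal.span {a}) = χ.ψ (Ideal.span {a}) * (sg K χ.S (a : K) * sg K χ.S (a : K)) := by
        rw [s1, mul_one]
    _ = _ := by ring

end Pool.Agent.H24.HH
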